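import Mathlib

set_option autoImplicit false

namespace Pool.Agent.Results.MP_52e7c8_nt.NoDarboux

open Set Filter Topology

/-- `k · A + h`. -/
def aff (k h : ℤ) (A : Set ℤ) : Set ℤ := (fun x => k * x + h) '' A

/-- Upper quasi-density on `ℤ`. -/
def UQD (μ : Set ℤ → ℝ) : Prop :=
  μ univ = 1 ∧ (∀ A B, μ (A ∪ B) ≤ μ A + μ B) ∧
    (∀ A, ∀ k > 0, ∀ h > 0, μ (aff k h A) = 1 / k * μ A) ∧ ∀ A, μ A ≤ 1

/-- Domain of the induced quasi-density. -/
def dom (μ : Set ℤ → ℝ) : Set (Set ℤ) := {A | μ A + μ Aᶜ = 1}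

def L (j : ℕ) : ℤ := j.factorial

def T (c : ℤ) : Set ℤ := {n | ∃ j, c * L j ≤ n ∧ n < (c + 1) * L j}

def X : Set ℤ := {n | n ∈ T 8 ∨ (Even n ∧ n ∉ T 9)}

def C : Set (Set ℤ → ℝ) := {φ | Monotone φ ∧ (∀ A B, φ (A ∪ B) ≤ φ A + φ B) ∧ 0 = φ ∅ ∧
  ∀ k > 0, ∀ h, φ (aff k h univ) ≤ 1 / k ∧ φ (aff k h X) ≤ 1 / (2 * k) ∧ φ (aff k h Xᶜ) ≤ 1 / (2 * k)}

noncomputable def μ (A : Set ℤ) : ℝ := sSup ((fun φ => φ A) '' C)

lemma C_le {φ : Set ℤ → ℝ} (h : φ ∈ C) (A : Set ℤ) : φ A ≤ 1 := by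
  have := (h.2.2.2 1 one_pos 0).1
  simp [aff] at this
  exact (h.1 (subset_univ A)).trans this

lemma le_μ {φ : Set ℤ → ℝ} (h : φ ∈ C) (A : Set ℤ) : φ A ≤ μ A :=
  le_csSup ⟨1, by rintro _ ⟨ψ, hψ, rfl⟩; exact C_le hψ A⟩ ⟨φ, h, rfl⟩

lemma zero_C : (fun _ => 0) ∈ C :=
  ⟨monotone_const, by simp, rfl, fun k hk h => ⟨by positivity, by positivity, by positivity⟩⟩

lemma μ_le {A : Set ℤ} {r : ℝ} (h : ∀ φ ∈ C, φ A ≤ r) : μ A ≤ r :=
  csSup_le ⟨_, _, zero_C, rfl⟩ (by rintro _ ⟨ψ, hψ, rfl⟩; exact h ψ hψ)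

lemma aff_aff (k h j g : ℤ) (A : Set ℤ) : aff k h (aff j g A) = aff (k * j) (k * g + h) A := by
  simp only [aff, image_image]; congr; ext; ring

lemma push {φ : Set ℤ → ℝ} (hφ : φ ∈ C) {k : ℤ} (hk : 0 < k) (h : ℤ) :
    (fun A => k * φ (aff k h A)) ∈ C := by
  have hk' : (0 : ℝ) < k := by exact_mod_cast hk
  refine ⟨fun A B hAB => mul_le_mul_of_nonneg_left (hφ.1 (image_mono hAB)) hk'.le, fun A B => ?_,
    by simp [aff, ← hφ.2.2.1], fun j hj g => ?_⟩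
  · have := hφ.2.1 (aff k h A) (aff k h B)
    simp only [aff, image_union] at *
    nlinarith
  · have hj' : (0 : ℝ) < j := by exact_mod_cast hj
    obtain ⟨h1, h2, h3⟩ := hφ.2.2.2 (k * j) (mul_pos hk hj) (k * g + h)
    simp only [aff_aff]
    push_cast at h1 h2 h3
    refine ⟨?_, ?_, ?_⟩ <;> refine (mul_le_mul_of_nonneg_left ‹_› hk'.le).trans_eq ?_ <;> field_simp

lemma pull_aux {φ : Set ℤ → ℝ} (hφ : φ ∈ C) {k j : ℤ} (hk : 0 < k) (hj : 0 < j) (h g : ℤ) (B : Set ℤ) :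
    φ ((fun x => k * x + h) ⁻¹' aff j g B) ≤ (k.gcd j : ℝ) / j := by
  rcases ((fun x => k * x + h) ⁻¹' aff j g B).eq_empty_or_nonempty with e | ⟨n, b, -, hb⟩
  · rw [e, ← hφ.2.2.1]; positivity
  have hg : 0 < (k.gcd j : ℤ) := by exact_mod_cast Int.gcd_pos_of_ne_zero_left j hk.ne'
  obtain ⟨m, hm⟩ := Int.gcd_dvd_right k j
  have hm0 : 0 < m := by nlinarith
  refine (hφ.1 (show _ ⊆ aff m n univ from ?_)).trans ((hφ.2.2.2 m hm0 n).1.trans_eq ?_)
  · rintro x ⟨c, -, hc⟩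
    have h1 : j ∣ k * (x - n) := ⟨c - b, by simp only at hc hb; linarith⟩
    have h2 := Int.gcd_eq_gcd_ab k j
    obtain ⟨t, ht⟩ := h1
    refine ⟨t * k.gcdA j + (x - n) * k.gcdB j, trivial, mul_left_cancel₀ hg.ne' ?_⟩
    simp only
    have : (k.gcd j : ℤ) * m = j := hm.symm
    linear_combination (t * k.gcdA j + (x - n) * k.gcdB j) * this - (x - n) * h2 - k.gcdA j * ht
  · have : (j : ℝ) = k.gcd j * m := by exact_mod_cast hm
    have h3 : (0 : ℝ) < k.gcd j := by exact_mod_cast hg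
    have h4 : (0 : ℝ) < m := by exact_mod_cast hm0
    rw [this]; field_simp

lemma pull {φ : Set ℤ → ℝ} (hφ : φ ∈ C) {k : ℤ} (hk : 0 < k) (h : ℤ) :
    (fun A => 1 / k * φ ((fun x => k * x + h) ⁻¹' A)) ∈ C := by
  have hk' : (0 : ℝ) < k := by exact_mod_cast hk
  refine ⟨fun A B hAB => mul_le_mul_of_nonneg_left (hφ.1 (preimage_mono hAB)) (by positivity),
    fun A B => ?_, by simp [← hφ.2.2.1], fun j hj g => ?_⟩
  · simp only [preimage_union, ← mul_add]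
    exact mul_le_mul_of_nonneg_left (hφ.2.1 _ _) (by positivity)
  have hj' : (0 : ℝ) < j := by exact_mod_cast hj
  have key : ∀ B, (∀ m > 0, ∀ c, φ (aff m c B) ≤ 1 / (2 * m)) →
      1 / k * φ ((fun x => k * x + h) ⁻¹' aff j g B) ≤ 1 / (2 * j) := fun B hB => by
    by_cases hd : k ∣ j
    · obtain ⟨m, rfl⟩ := hd
      have hm : 0 < m := by nlinarith
      have hm' : (0 : ℝ) < m := by exact_mod_cast hm
      rcases ((fun x => k * x + h) ⁻¹' aff (k * m) g B).eq_empty_or_nonempty with e | ⟨n, b, -, hb⟩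
      · rw [e, ← hφ.2.2.1, mul_zero]; exact (one_div_pos.mpr (by linarith)).le
      refine (mul_le_mul_of_nonneg_left ((hφ.1 (show _ ⊆ aff m (n - m * b) B from ?_)).trans (hB m hm _))
        (by positivity)).trans_eq (by push_cast; field_simp)
      rintro x ⟨c, hc, hx⟩
      exact ⟨c, hc, mul_left_cancel₀ hk.ne' (by simp only at hx hb ⊢; linarith)⟩
    · obtain ⟨m, hm⟩ := Int.gcd_dvd_left k j
      have hg : 0 < (k.gcd j : ℤ) := by exact_mod_cast Int.gcd_pos_of_ne_zero_left j hk.ne'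
      have h1 : m ≠ 1 := fun e => hd (by rw [hm, e, mul_one]; exact Int.gcd_dvd_right _ _)
      have h2 : 0 < m := by nlinarith
      have h3 : 2 * (k.gcd j : ℤ) ≤ k := by nlinarith [show 2 ≤ m by omega]
      have h4 : 2 * (k.gcd j : ℝ) ≤ k := by exact_mod_cast h3
      refine (mul_le_mul_of_nonneg_left (pull_aux hφ hk hj h g B) (by positivity)).trans ?_
      rw [div_mul_div_comm, div_le_div_iff₀ (by positivity) (by positivity)]
      nlinarith
  refine ⟨(mul_le_mul_of_nonneg_left (pull_aux hφ hk hj h g _) (by positivity)).trans ?_,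
    key _ fun m hm c => (hφ.2.2.2 m hm c).2.1, key _ fun m hm c => (hφ.2.2.2 m hm c).2.2⟩
  have h4 : (k.gcd j : ℝ) ≤ k := by exact_mod_cast Int.le_of_dvd hk (Int.gcd_dvd_left k j)
  rw [div_mul_div_comm, div_le_div_iff₀ (by positivity) (by positivity)]
  nlinarith

def I (c : ℤ) (j : ℕ) : Set ℤ := Ico (c * L j) ((c + 1) * L j)

noncomputable def cnt (c : ℤ) (A : Set ℤ) (j : ℕ) : ℝ := (A ∩ I c j).ncard / (j.factorial : ℝ)

noncomputable def ν (c : ℤ) (A : Set ℤ) : ℝ := limUnder (hyperfilter ℕ) (cnt c A)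

lemma I_fin (c : ℤ) (j : ℕ) : (I c j).Finite := finite_Ico _ _

lemma I_card (c : ℤ) (j : ℕ) : (I c j).ncard = j.factorial := by
  rw [I, ← Finset.coe_Ico, ncard_coe_finset, Int.card_Ico, L]
  simp [add_mul]

lemma fp (j : ℕ) : (0 : ℝ) < j.factorial := by exact_mod_cast j.factorial_pos

lemma cnt_c (c : ℤ) (A : Set ℤ) (j : ℕ) : cnt c A j + cnt c Aᶜ j = 1 := by
  have := ncard_inter_add_ncard_diff_eq_ncard (I c j) A (I_fin c j)
  rw [I_card, diff_eq, inter_comm, inter_comm _ Aᶜ] at this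
  rw [cnt, cnt, ← add_div, div_eq_one_iff_eq (fp j).ne']
  exact_mod_cast this

lemma cnt0 (c : ℤ) (A : Set ℤ) (j : ℕ) : 0 ≤ cnt c A j := by unfold cnt; positivity

lemma tν (c : ℤ) (A : Set ℤ) : Tendsto (cnt c A) (hyperfilter ℕ) (𝓝 (ν c A)) := by
  obtain ⟨x, -, hx⟩ := (isCompact_Icc (a := (0 : ℝ)) (b := 1)).ultrafilter_le_nhds
    ((hyperfilter ℕ).map (cnt c A)) (le_principal_iff.mpr (mem_map.mpr (univ_mem' fun j =>
      ⟨cnt0 c A j, by linarith [cnt_c c A j, cnt0 c Aᶜ j]⟩)))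
  exact tendsto_nhds_limUnder ⟨x, hx⟩

lemma ν_c (c : ℤ) (A : Set ℤ) : ν c A + ν c Aᶜ = 1 :=
  tendsto_nhds_unique ((tν c A).add (tν c Aᶜ)) (by simp [cnt_c])

lemma ν0 (c : ℤ) (A : Set ℤ) : 0 ≤ ν c A := ge_of_tendsto' (tν c A) (cnt0 c A)

lemma up : (hyperfilter ℕ : Filter ℕ) ≤ atTop := Nat.cofinite_eq_atTop ▸ hyperfilter_le_cofinite

lemma ν_ev (c : ℤ) {A B : Set ℤ} (h : ∀ᶠ j in atTop, A ∩ I c j ⊆ B) : ν c A ≤ ν c B :=
  le_of_tendsto_of_tendsto (tν c A) (tν c B) ((h.filter_mono up).mono fun j hj =>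
    div_le_div_of_nonneg_right (by
      exact_mod_cast ncard_le_ncard (subset_inter hj inter_subset_right) ((I_fin c j).inter_of_right _))
      (fp j).le)

lemma ν_mono (c : ℤ) : Monotone (ν c) := fun _ _ h =>
  ν_ev c (Eventually.of_forall fun _ => inter_subset_left.trans h)

lemma ν_un (c : ℤ) (A B : Set ℤ) : ν c (A ∪ B) ≤ ν c A + ν c B :=
  le_of_tendsto_of_tendsto' (tν c _) ((tν c A).add (tν c B)) fun j => by
    simp only [cnt, ← add_div, union_inter_distrib_right]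
    exact div_le_div_of_nonneg_right (by exact_mod_cast ncard_union_le _ _) (fp j).le

lemma ν_le (c : ℤ) {A : Set ℤ} {r K : ℝ}
    (h : ∀ᶠ j in atTop, ((A ∩ I c j).ncard : ℝ) ≤ r * j.factorial + K) : ν c A ≤ r := by
  have h1 : Tendsto (fun j : ℕ => r + K / (j.factorial : ℝ)) atTop (𝓝 (r + 0)) :=
    tendsto_const_nhds.add (tendsto_const_nhds.div_atTop
      (tendsto_natCast_atTop_atTop.comp (tendsto_atTop_mono Nat.self_le_factorial tendsto_id)))
  rw [add_zero] at h1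
  refine le_of_tendsto_of_tendsto (tν c A) (h1.mono_left up) ((h.filter_mono up).mono fun j hj => ?_)
  have := fp j
  simp only [cnt]
  rw [div_le_iff₀ this, add_mul, div_mul_cancel₀ _ this.ne']
  exact hj

lemma ν_e (c : ℤ) : ν c ∅ = 0 :=
  le_antisymm (ν_le c (K := 0) (Eventually.of_forall fun j => by simp)) (ν0 _ _)

lemma ν_ap (c : ℤ) {m : ℤ} (hm : 0 < m) (h : ℤ) : ν c (aff m h univ) ≤ 1 / m := by
  refine ν_le c (K := 1) ((eventually_ge_atTop m.toNat).mono fun j hj => ?_)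
  obtain ⟨t, ht⟩ := Nat.dvd_factorial (by omega) hj
  have ht' : L j = m * t := by rw [L, ht]; push_cast; rw [Int.toNat_of_nonneg hm.le]
  have h1 : aff m h univ ∩ I c j ⊆ aff m h (Icc (c * t - h / m - 1 + 1 - 1) (c * t - h / m - 1 + t)) := by
    rintro _ ⟨⟨x, -, rfl⟩, h1, h2⟩
    have := Int.emod_add_mul_ediv h m
    have := Int.emod_nonneg h hm.ne'
    have := Int.emod_lt_of_pos h hm
    rw [ht'] at h1 h2
    exact ⟨x, ⟨by simp only at h1; nlinarith, by simp only at h2; nlinarith⟩, rfl⟩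
  have h2 := (ncard_le_ncard h1 ((finite_Icc _ _).image _)).trans (ncard_image_le (finite_Icc _ _))
  rw [← Finset.coe_Icc, ncard_coe_finset, Int.card_Icc] at h2
  have h3 : ((aff m h univ ∩ I c j).ncard : ℝ) ≤ t + 1 := by exact_mod_cast h2.trans (by omega)
  have h4 : (j.factorial : ℝ) = m * t := by exact_mod_cast ht'
  have h5 : (0 : ℝ) < m := by exact_mod_cast hm
  rw [h4, one_div, inv_mul_cancel_left₀ h5.ne']
  exact h3

lemma ν_edge (c h : ℤ) {A : Set ℤ} (hA : ∀ j ≥ 1, ∀ x ∈ I c j, x ∉ A) : ν c (aff 1 h A) ≤ 0 := by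
  refine ν_le c (K := |h|.toNat + |h|.toNat) ((eventually_ge_atTop 1).mono fun j hj => ?_)
  have h1 : aff 1 h A ∩ I c j ⊆ Ico (c * L j) (c * L j + |h|) ∪ Ico ((c + 1) * L j - |h|) ((c + 1) * L j) := by
    rintro _ ⟨⟨x, hx, rfl⟩, h1, h2⟩
    have : ¬ (c * L j ≤ x ∧ x < (c + 1) * L j) := fun h => hA j hj x h hx
    have := le_abs_self h
    have := neg_abs_le h
    simp only [I, mem_Ico, mem_union] at *
    omega
  have h2 := (ncard_le_ncard h1 ((finite_Ico _ _).union (finite_Ico _ _))).trans (ncard_union_le _ _)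
  simp only [← Finset.coe_Ico, ncard_coe_finset, Int.card_Ico, add_sub_cancel_left, sub_sub_cancel] at h2
  rw [zero_mul, zero_add]
  exact_mod_cast h2

lemma L_mono {i j : ℕ} (h : i ≤ j) : L i ≤ L j := by
  unfold L; exact_mod_cast Nat.factorial_le h

lemma L_succ (j : ℕ) : L (j + 1) = (j + 1) * L j := by simp [L, Nat.factorial_succ]

lemma L_pos (j : ℕ) : 0 < L j := by unfold L; exact_mod_cast j.factorial_pos

lemma gap {k : ℤ} (hk : 2 ≤ k) (h c : ℤ) (hc : c = 8 ∨ c = 9) :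
    ∀ᶠ j in atTop, ∀ b, k * b + h ∈ I c j → b ∉ T 8 ∧ b ∉ T 9 := by
  filter_upwards [eventually_ge_atTop (|h|.toNat + 2 * k.toNat + 1)] with j hj b hb
  obtain ⟨j, rfl⟩ : ∃ i, j = i + 1 := ⟨j - 1, by omega⟩
  have h1 : ((j + 1 : ℕ) : ℤ) ≤ L (j + 1) := by unfold L; exact_mod_cast Nat.self_le_factorial _
  have h2 := le_abs_self h
  have h3 := neg_abs_le h
  have h4 := L_pos j
  have h5 := L_succ j
  have h6 : 7 * L (j + 1) ≤ k * b ∧ k * b ≤ 11 * L (j + 1) := by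
    rcases hc with rfl | rfl <;> simp only [I, mem_Ico] at hb <;> omega
  have h7 : 2 * k ≤ j := by omega
  have h8 : 10 * L j ≤ b := by nlinarith [h6.1]
  have h9 : b < 8 * L (j + 1) := by nlinarith [h6.2]
  have : ∀ i, b < 8 * L i ∨ 10 * L i ≤ b := fun i => by
    rcases le_or_gt i j with h | h
    · have := L_mono h; omega
    · have := L_mono (show j + 1 ≤ i from h); omega
  constructor <;> rintro ⟨i, a, a'⟩ <;> have := this i <;> have := L_pos i <;> omega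

lemma ν_big {k : ℤ} (hk : 2 ≤ k) (h c : ℤ) (hc : c = 8 ∨ c = 9) :
    ν c (aff k h X) ≤ 1 / (2 * k) ∧ ν c (aff k h Xᶜ) ≤ 1 / (2 * k) := by
  constructor
  · refine (ν_ev c ((gap hk h c hc).mono ?_)).trans ((ν_ap c (m := 2 * k) (by omega) h).trans_eq (by simp))
    rintro j hj _ ⟨⟨b, hb, rfl⟩, h1⟩
    obtain ⟨t, ht⟩ := (hb.resolve_left (hj b h1).1).1
    exact ⟨t, trivial, by simp only [ht]; ring⟩
  · refine (ν_ev c ((gap hk h c hc).mono ?_)).trans
      ((ν_ap c (m := 2 * k) (by omega) (h + k)).trans_eq (by simp))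
    rintro j hj _ ⟨⟨b, hb, rfl⟩, h1⟩
    obtain ⟨t, ht⟩ := Int.not_even_iff_odd.mp fun e => hb (Or.inr ⟨e, (hj b h1).2⟩)
    exact ⟨t, trivial, by simp only [ht]; ring⟩

lemma e8 (h : ℤ) : ν 8 (aff 1 h Xᶜ) ≤ 0 := ν_edge 8 h fun j _ x hx h => h (Or.inl ⟨j, hx⟩)

lemma e9 (h : ℤ) : ν 9 (aff 1 h X) ≤ 0 := ν_edge 9 h fun j hj x hx h => by
  rcases h with ⟨i, a, a'⟩ | h
  · simp only [I, mem_Ico] at hx
    rcases le_or_gt i j with h | h
    · have := L_mono h; omega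
    · have := L_mono (show j + 1 ≤ i from h)
      have := L_succ j
      have := L_pos j
      have : (1 : ℤ) ≤ j := by exact_mod_cast hj
      nlinarith
  · exact h.2 ⟨j, hx⟩

lemma ν1 (c : ℤ) (A : Set ℤ) : ν c A ≤ 1 := by linarith [ν_c c A, ν0 c Aᶜ]

lemma φ0 : (fun A => (ν 8 A + ν 9 A) / 2) ∈ C := by
  refine ⟨fun A B h => by have := ν_mono 8 h; have := ν_mono 9 h; simp only; linarith,
    fun A B => by linarith [ν_un 8 A B, ν_un 9 A B], by simp [ν_e], fun k hk h =>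
      ⟨by linarith [ν_ap 8 hk h, ν_ap 9 hk h], ?_⟩⟩
  rcases (show k = 1 ∨ 2 ≤ k by omega) with rfl | h2
  · push_cast
    exact ⟨by linarith [e9 h, ν1 8 (aff 1 h X)], by linarith [e8 h, ν1 9 (aff 1 h Xᶜ)]⟩
  · have a := ν_big h2 h 8 (Or.inl rfl)
    have b := ν_big h2 h 9 (Or.inr rfl)
    exact ⟨by linarith [a.1, b.1], by linarith [a.2, b.2]⟩

lemma φ1 : (fun A => min (ν 8 A) (1 / 2)) ∈ C := by
  refine ⟨fun A B h => min_le_min_right _ (ν_mono 8 h), fun A B => ?_, by simp [ν_e], fun k hk h =>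
      ⟨(min_le_left _ _).trans (ν_ap 8 hk h), ?_⟩⟩
  · have := ν_un 8 A B
    have := ν0 8 A
    have := ν0 8 B
    simp only [min_def]
    split_ifs <;> linarith
  rcases (show k = 1 ∨ 2 ≤ k by omega) with rfl | h2
  · exact ⟨(min_le_right _ _).trans (by norm_num), (min_le_right _ _).trans (by norm_num)⟩
  · have a := ν_big h2 h 8 (Or.inl rfl)
    exact ⟨(min_le_left _ _).trans a.1, (min_le_left _ _).trans a.2⟩

theorem result : ∃ μ : Set ℤ → ℝ, UQD μ ∧ Monotone μ ∧ ∃ X ∈ dom μ, ∃ a ∈ Icc 0 (μ X),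
    ¬ ∃ Y ∈ dom μ, Y ⊆ X ∧ μ Y = a := by
  have a1 : ∀ A, aff 1 0 A = A := fun A => by simp [aff]
  have h1 : μ univ = 1 := le_antisymm (μ_le fun φ h => C_le h _) (by
    have := le_μ φ0 univ
    have a := ν_c 8 ∅
    have b := ν_c 9 ∅
    rw [ν_e, compl_empty] at a b
    linarith)
  have h2 : ∀ A B, μ (A ∪ B) ≤ μ A + μ B := fun A B =>
    μ_le fun φ h => (h.2.1 A B).trans (add_le_add (le_μ h A) (le_μ h B))
  have h3 : μ X ≤ 1 / 2 := μ_le fun φ h => by simpa [a1] using (h.2.2.2 1 one_pos 0).2.1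
  have h4 : μ Xᶜ ≤ 1 / 2 := μ_le fun φ h => by simpa [a1] using (h.2.2.2 1 one_pos 0).2.2
  have h5 := h2 X Xᶜ
  rw [union_compl_self] at h5
  refine ⟨μ, ⟨h1, h2, fun A k hk h _ => le_antisymm (μ_le fun φ hφ => ?_) ?_,
    fun A => μ_le fun φ h => C_le h A⟩, fun A B h => μ_le fun φ hφ => (hφ.1 h).trans (le_μ hφ B),
    X, by change _ + _ = _; linarith, 1 / 4, ⟨by norm_num, by linarith⟩, ?_⟩
  · have hk' : (0 : ℝ) < k := by exact_mod_cast hk
    rw [one_div, le_inv_mul_iff₀ hk']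
    exact le_μ (push hφ hk h) A
  · have hk' : (0 : ℝ) < k := by exact_mod_cast hk
    rw [one_div, inv_mul_le_iff₀ hk']
    refine μ_le fun φ hφ => ?_
    have := le_μ (pull hφ hk h) (aff k h A)
    rw [aff, preimage_image_eq _ (fun x y e => mul_left_cancel₀ hk.ne' (add_right_cancel e)), one_div,
      inv_mul_le_iff₀ hk'] at this
    exact this
  · rintro ⟨Y, hY, hYX, e⟩
    have b1 : μ Y + μ Yᶜ = 1 := hY
    have b2 := le_μ φ0 Yᶜ
    have b3 := le_μ φ1 Y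
    have b4 := ν_mono 9 hYX
    have b5 := e9 0
    rw [a1] at b5
    have b6 : 1 / 2 ≤ ν 8 Y := by linarith [ν_c 8 Y, ν_c 9 Y]
    rw [min_eq_right b6] at b3
    linarith

end Pool.Agent.Results.MP_52e7c8_nt.NoDarboux
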